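import Pool.Agent.Run7.h872.WD.CNT
import Pool.Agent.H523R2.CodeZero

/-!
Project WD: assembly. The weight distributions of `C_t` and `B_t` agree.
-/

set_option autoImplicit false

namespace Pool.Agent.Run7.h872.WD

open Finset Polynomial Pool.Agent.H523R2

theorem sum_G (hV : S_VAL) (hM : S_MOM) (t : ℕ) (ht : 2 ≤ t) (K : Type) [Field K] [Fintype K]
    [Algebra (ZMod 2) K] (hK : Fintype.card K = 2 ^ (2 * t + 1)) (G : ℚ → ℚ) :
    ∑ v : K × K × K, G (S (1 + 2 ^ (t - 1)) (1 + 2 ^ t) v) = ∑ v : K × K × K, G (S 3 5 v) := by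
  classical
  set V : Finset ℚ := {0, 2 ^ (t + 1), -2 ^ (t + 1), 2 ^ (t + 2), -2 ^ (t + 2)} with hVdef
  have hcard : V.card ≤ 5 := Finset.card_le_five
  set P : ℚ[X] := Lagrange.interpolate V id G with hP
  have hinj : Set.InjOn (id : ℚ → ℚ) V := fun a _ b _ h => h
  have hPv : ∀ x ∈ V, P.eval x = G x := fun x hx =>
    Lagrange.eval_interpolate_at_node (s := V) (v := id) G hinj hx
  have hdeg : P.natDegree < 5 := by
    have h1 : P.degree < V.card := Lagrange.degree_interpolate_lt G hinj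
    by_cases h0 : P = 0
    · rw [h0]; simp
    · have h2 : P.degree < 5 := lt_of_lt_of_le h1 (by exact_mod_cast hcard)
      exact (Polynomial.natDegree_lt_iff_degree_lt h0).2 h2
  have key : ∀ e f : ℕ, (e = 1 + 2 ^ (t - 1) ∧ f = 1 + 2 ^ t ∨ e = 3 ∧ f = 5) →
      ∑ v : K × K × K, G (S e f v) =
        (∑ k ∈ range 5, P.coeff k * ∑ v : K × K × K, S e f v ^ k) +
          (G (Fintype.card K : ℚ) - P.eval (Fintype.card K : ℚ)) := by
    intro e f hef
    have h0 : S e f (0 : K × K × K) = (Fintype.card K : ℚ) := by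
      unfold S
      simp [psi_zero]
    have h1 : ∑ k ∈ range 5, P.coeff k * ∑ v : K × K × K, S e f v ^ k =
        ∑ v : K × K × K, P.eval (S e f v) := by
      simp only [Finset.mul_sum]
      rw [Finset.sum_comm]
      refine Finset.sum_congr rfl fun v _ => ?_
      rw [Polynomial.eval_eq_sum_range' hdeg]
    rw [h1, ← Finset.add_sum_erase _ _ (Finset.mem_univ (0 : K × K × K)),
      ← Finset.add_sum_erase (univ : Finset (K × K × K)) (fun v => P.eval (S e f v)) (Finset.mem_univ (0 : K × K × K)),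
      h0]
    have h2 : ∑ v ∈ univ.erase (0 : K × K × K), G (S e f v) =
        ∑ v ∈ univ.erase (0 : K × K × K), P.eval (S e f v) := by
      refine Finset.sum_congr rfl fun v hv => ?_
      exact (hPv _ (hV t ht K hK e f hef v (Finset.ne_of_mem_erase hv))).symm
    rw [h2]
    ring
  rw [key _ _ (Or.inl ⟨rfl, rfl⟩), key _ _ (Or.inr ⟨rfl, rfl⟩)]
  congr 1
  refine Finset.sum_congr rfl fun k hk => ?_
  rw [hM t ht K hK k (by have := Finset.mem_range.1 hk; omega)]

theorem main (hV : S_VAL) (hM : S_MOM) (t : ℕ) (ht : 2 ≤ t) (K : Type) [Field K] [Fintype K]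
    [Algebra (ZMod 2) K] (hK : Fintype.card K = 2 ^ (2 * t + 1)) (α : K)
    (hα : orderOf α = 2 ^ (2 * t + 1) - 1) (w : ℕ) :
    Set.ncard {c : Fin (2 ^ (2 * t + 1) - 1) → ZMod 2 | c ∈ codeC α t ∧ hammingNorm c = w} =
      Set.ncard {c : Fin (2 ^ (2 * t + 1) - 1) → ZMod 2 | c ∈ codeB α t ∧ hammingNorm c = w} := by
  classical
  have hpos : 32 ≤ 2 ^ (2 * t + 1) := by
    calc 32 = 2 ^ 5 := by norm_num
      _ ≤ 2 ^ (2 * t + 1) := Nat.pow_le_pow_right (by norm_num) (by omega)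
  have hn : (2 ^ (2 * t + 1) - 1) + 1 = Fintype.card K := by rw [hK]; omega
  have hα0 : α ≠ 0 := by
    rintro rfl
    rw [orderOf_zero] at hα
    omega
  set a : Kˣ := Units.mk0 α hα0 with ha
  have hav : (a : K) = α := rfl
  have hoa : orderOf a = 2 ^ (2 * t + 1) - 1 := by
    rw [← hα, ← hav, orderOf_units]
  have eC : codeC α t = zeroCode (2 ^ (2 * t + 1) - 1)
      (frobC {a, a ^ (1 + 2 ^ (t - 1)), a ^ (1 + 2 ^ t)} : Set Kˣ) := by
    rw [← cyclicCode_eq_zeroCode hn (x := a) (y := a ^ (1 + 2 ^ (t - 1))) (z := a ^ (1 + 2 ^ t))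
      (bet_pow_ne (by omega) hoa (by omega) (by omega))
      (bet_pow_ne (by omega) hoa (by omega) (by omega))
      (bet_pow_ne' (by omega) hoa (by omega) (by omega) (by omega) (by omega) (by omega))]
    unfold codeC Mpoly
    simp only [Units.val_pow_eq_pow_val, hav, pow_one]
  have eB : codeB α t = zeroCode (2 ^ (2 * t + 1) - 1) (frobC {a, a ^ 3, a ^ 5} : Set Kˣ) := by
    rw [← cyclicCode_eq_zeroCode hn (x := a) (y := a ^ 3) (z := a ^ 5)
      (bet_pow_ne (t := t) (a := 1) (by omega) hoa (by omega) (by omega))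
      (bet_pow_ne (t := t) (a := 2) (by omega) hoa (by omega) (by omega))
      (bet_pow_ne' (t := t) (a := 2) (b := 1) (by omega) hoa (by omega) (by omega) (by omega) (by omega) (by omega))]
    unfold codeB Mpoly
    simp only [Units.val_pow_eq_pow_val, hav, pow_one]
  have hset : ∀ (C : Set (Fin (2 ^ (2 * t + 1) - 1) → ZMod 2)) (e f : ℕ),
      C = zeroCode (2 ^ (2 * t + 1) - 1) (frobC {a, a ^ e, a ^ f} : Set Kˣ) →
      {c : Fin (2 ^ (2 * t + 1) - 1) → ZMod 2 | c ∈ C ∧ hammingNorm c = w} =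
      {c : Fin (2 ^ (2 * t + 1) - 1) → ZMod 2 |
        (∑ j, algebraMap (ZMod 2) K (c j) * α ^ (j : ℕ) = 0) ∧
        (∑ j, algebraMap (ZMod 2) K (c j) * (α ^ e) ^ (j : ℕ) = 0) ∧
        (∑ j, algebraMap (ZMod 2) K (c j) * (α ^ f) ^ (j : ℕ) = 0) ∧ hammingNorm c = w} := by
    intro C e f hC
    subst hC
    ext c
    simp only [Set.mem_setOf_eq, mem_zeroCode_frobC, Finset.mem_insert, Finset.mem_singleton,
      forall_eq_or_imp, forall_eq, aeval_wordPoly, Units.val_pow_eq_pow_val, hav, and_assoc]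
  obtain ⟨G, hG⟩ := t_CNT t w ht
  have h1 := hG K hK α hα (1 + 2 ^ (t - 1)) (1 + 2 ^ t) (Nat.le_add_right 1 _) (Nat.le_add_right 1 _)
  have h2 := hG K hK α hα 3 5 (by omega) (by omega)
  rw [hset _ _ _ eC, hset _ _ _ eB]
  have h3 : ((2 : ℚ) ^ (2 * t + 1)) ^ 3 ≠ 0 := by positivity
  have h4 := h1.trans ((sum_G hV hM t ht K hK G).trans h2.symm)
  exact_mod_cast mul_left_cancel₀ h3 h4

end Pool.Agent.Run7.h872.WD
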