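import Pool.Agent.Run7.h872.WD.Defs

/-!
Project WD: character sums and the number of words of given weight.
-/

set_option autoImplicit false

namespace Pool.Agent.Run7.h872.WD

open Finset

theorem zm2 : ∀ u : ZMod 2, u = 0 ∨ u = 1 := by decide

section
variable {K : Type*} [Field K] [Algebra (ZMod 2) K]

theorem psi_zero : psi (0 : K) = 1 := by simp [psi]

theorem psi_add (x y : K) : psi (x + y) = psi x * psi y := by
  unfold psi
  rw [map_add]
  rcases zm2 (Algebra.trace (ZMod 2) K x) with h1 | h1 <;>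
    rcases zm2 (Algebra.trace (ZMod 2) K y) with h2 | h2 <;> rw [h1, h2]
  · simp
  · simp
  · simp
  · have : (1 : ZMod 2) + 1 = 0 := by decide
    rw [this]
    simp

theorem psi_sign (x : K) : psi x = 1 ∨ psi x = -1 := by
  unfold psi
  split_ifs
  · exact Or.inl rfl
  · exact Or.inr rfl

theorem psi_sum {ι : Type*} (s : Finset ι) (g : ι → K) : psi (∑ i ∈ s, g i) = ∏ i ∈ s, psi (g i) := by
  classical
  induction s using Finset.induction_on with
  | empty => simp [psi_zero]
  | insert a s ha ih => rw [Finset.sum_insert ha, Finset.prod_insert ha, psi_add, ih]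

theorem exists_trace_ne [Fintype K] {x : K} (hx : x ≠ 0) : ∃ a : K, psi (a * x) = -1 := by
  by_contra hcon
  push Not at hcon
  have h1 : ∀ a : K, Algebra.trace (ZMod 2) K a = 0 := by
    intro a
    have h2 := hcon (a * x⁻¹)
    rw [mul_assoc, inv_mul_cancel₀ hx, mul_one] at h2
    by_contra h3
    exact h2 (by simp [psi, h3])
  haveI : Finite K := inferInstance
  haveI : Algebra.IsSeparable (ZMod 2) K := inferInstance
  have h3 := Algebra.trace_ne_zero (ZMod 2) K
  exact h3 (LinearMap.ext h1)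

open Classical in
theorem orth [Fintype K] (x : K) : ∑ a : K, psi (a * x) = if x = 0 then (Fintype.card K : ℚ) else 0 := by
  split_ifs with h
  · subst h
    simp [psi_zero]
  · obtain ⟨a0, h0⟩ := exists_trace_ne h
    have h1 : ∑ a : K, psi (a * x) = ∑ a : K, psi ((a + a0) * x) :=
      (Fintype.sum_equiv (Equiv.addRight a0) (fun a => psi ((a + a0) * x)) (fun a => psi (a * x))
        (fun a => rfl)).symm
    have h2 : ∑ a : K, psi ((a + a0) * x) = - ∑ a : K, psi (a * x) := by
      rw [← Finset.sum_neg_distrib]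
      refine Finset.sum_congr rfl fun a _ => ?_
      rw [add_mul, psi_add, h0]
      ring
    linarith

open Classical in
theorem orth3 [Fintype K] (x y z : K) :
    ∑ v : K × K × K, psi (v.1 * x + v.2.1 * y + v.2.2 * z) =
      if x = 0 ∧ y = 0 ∧ z = 0 then (Fintype.card K : ℚ) ^ 3 else 0 := by
  rw [Fintype.sum_prod_type]
  simp only [Fintype.sum_prod_type, psi_add]
  have h1 : ∑ a : K, ∑ b : K, ∑ c : K, psi (a * x) * psi (b * y) * psi (c * z) =
      (∑ a : K, psi (a * x)) * (∑ b : K, psi (b * y)) * (∑ c : K, psi (c * z)) := by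
    simp only [← Finset.mul_sum, ← Finset.sum_mul]
  rw [h1, orth, orth, orth]
  by_cases hx : x = 0 <;> by_cases hy : y = 0 <;> by_cases hz : z = 0 <;> simp [hx, hy, hz]
  ring

end

theorem perm_of_sum {n : ℕ} (δ δ' : Fin n → ℚ) (h : ∀ j, δ j = 1 ∨ δ j = -1)
    (h' : ∀ j, δ' j = 1 ∨ δ' j = -1) (hs : ∑ j, δ j = ∑ j, δ' j) :
    ∃ σ : Equiv.Perm (Fin n), ∀ j, δ' j = δ (σ j) := by
  classical
  have key : ∀ d : Fin n → ℚ, (∀ j, d j = 1 ∨ d j = -1) →
      ∑ j, d j = 2 * (Fintype.card {j // d j = 1} : ℚ) - n := by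
    intro d hd
    have h1 : ∀ j, d j = 2 * (if d j = 1 then 1 else 0) - 1 := by
      intro j
      rcases hd j with h | h
      · rw [h]; norm_num
      · rw [h]; norm_num
    have h2 : ∑ j, d j = ∑ j, (2 * (if d j = 1 then (1 : ℚ) else 0) - 1) :=
      Finset.sum_congr rfl fun j _ => h1 j
    rw [h2, Finset.sum_sub_distrib, ← Finset.mul_sum, Finset.sum_boole, Fintype.card_subtype]
    simp
  have h3 : Fintype.card {j // δ' j = 1} = Fintype.card {j // δ j = 1} := by
    have h4 := key δ h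
    have h5 := key δ' h'
    have h6 : (Fintype.card {j // δ' j = 1} : ℚ) = (Fintype.card {j // δ j = 1} : ℚ) := by linarith
    exact_mod_cast h6
  let e : {j // δ' j = 1} ≃ {j // δ j = 1} := Fintype.equivOfCardEq h3
  refine ⟨e.extendSubtype, fun j => ?_⟩
  by_cases hj : δ' j = 1
  · rw [hj]
    exact (e.extendSubtype_mem j hj).symm
  · have h7 := e.extendSubtype_not_mem j hj
    rw [(h' j).resolve_left hj, (h _).resolve_left h7]

/-- the elementary symmetric function, as a sum over words of weight `w` -/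
noncomputable def el (n w : ℕ) (δ : Fin n → ℚ) : ℚ :=
  ∑ c : Fin n → ZMod 2, if hammingNorm c = w then ∏ j, (if c j = 0 then 1 else δ j) else 0

theorem el_perm {n w : ℕ} (δ : Fin n → ℚ) (σ : Equiv.Perm (Fin n)) :
    el n w (fun j => δ (σ j)) = el n w δ := by
  classical
  unfold el
  refine Fintype.sum_equiv (Equiv.arrowCongr σ (Equiv.refl (ZMod 2))) _ _ fun c => ?_
  have h1 : hammingNorm ((Equiv.arrowCongr σ (Equiv.refl (ZMod 2))) c) = hammingNorm c := by
    unfold hammingNorm
    refine Finset.card_bij (fun j _ => σ.symm j) ?_ ?_ ?_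
    · intro j hj
      simpa using hj
    · intro a _ b _ hab
      exact σ.symm.injective hab
    · intro b hb
      exact ⟨σ b, by simpa using hb, by simp⟩
  rw [h1]
  split_ifs
  · rw [← Equiv.prod_comp σ (fun j => if (Equiv.arrowCongr σ (Equiv.refl (ZMod 2))) c j = 0 then 1 else δ j)]
    refine Finset.prod_congr rfl fun j _ => ?_
    simp
  · rfl

open Classical in
/-- the function `G` -/
noncomputable def GG (n w : ℕ) (s : ℚ) : ℚ :=
  if h : ∃ δ : Fin n → ℚ, (∀ j, δ j = 1 ∨ δ j = -1) ∧ 1 + ∑ j, δ j = s then el n w h.choose else 0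

theorem GG_eq {n w : ℕ} (δ : Fin n → ℚ) (h : ∀ j, δ j = 1 ∨ δ j = -1) :
    GG n w (1 + ∑ j, δ j) = el n w δ := by
  have hex : ∃ δ' : Fin n → ℚ, (∀ j, δ' j = 1 ∨ δ' j = -1) ∧ 1 + ∑ j, δ' j = 1 + ∑ j, δ j := ⟨δ, h, rfl⟩
  unfold GG
  rw [dif_pos hex]
  obtain ⟨h1, h2⟩ := hex.choose_spec
  obtain ⟨σ, hσ⟩ := perm_of_sum δ hex.choose h h1 (by linarith)
  rw [funext hσ]
  exact el_perm δ σ

section
variable {K : Type} [Field K] [Fintype K] [Algebra (ZMod 2) K]

/-- The powers of a primitive element. -/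
theorem S_eq {n : ℕ} (hn : n + 1 = Fintype.card K) {α : K} (hα : orderOf α = n) (hn0 : 0 < n)
    (e f : ℕ) (he : 1 ≤ e) (hf : 1 ≤ f) (v : K × K × K) :
    S e f v = 1 + ∑ j : Fin n, psi (v.1 * α ^ (j : ℕ) + v.2.1 * (α ^ e) ^ (j : ℕ) + v.2.2 * (α ^ f) ^ (j : ℕ)) := by
  classical
  have hα0 : α ≠ 0 := by
    rintro rfl
    have : (0 : K) ^ n = 1 := by rw [← hα]; exact pow_orderOf_eq_one _
    rw [zero_pow (by omega)] at this
    exact zero_ne_one this
  have hinj : Function.Injective (fun j : Fin n => α ^ (j : ℕ)) := by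
    intro a b hab
    have h1 := pow_injOn_Iio_orderOf (x := α) (by rw [hα]; exact a.2) (by rw [hα]; exact b.2) hab
    exact Fin.ext h1
  have himg : (univ : Finset (Fin n)).image (fun j : Fin n => α ^ (j : ℕ)) = univ.erase 0 := by
    apply Finset.eq_of_subset_of_card_le
    · intro x hx
      obtain ⟨j, -, rfl⟩ := Finset.mem_image.1 hx
      simp [hα0]
    · rw [Finset.card_image_of_injective _ hinj, Finset.card_erase_of_mem (Finset.mem_univ _),
        Finset.card_univ, Finset.card_univ, Fintype.card_fin, ← hn]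
      omega
  unfold S
  rw [← Finset.add_sum_erase _ _ (Finset.mem_univ (0 : K)), ← himg,
    Finset.sum_image (fun a _ b _ h => hinj h)]
  congr 1
  · rw [zero_pow (by omega), zero_pow (by omega)]
    simp [psi_zero]
  · refine Finset.sum_congr rfl fun j _ => ?_
    simp only [← pow_mul, mul_comm]

open Classical in
theorem count {n : ℕ} (hn : n + 1 = Fintype.card K) {α : K} (hα : orderOf α = n) (hn0 : 0 < n)
    (w e f : ℕ) (he : 1 ≤ e) (hf : 1 ≤ f) :
    (Fintype.card K : ℚ) ^ 3 * ((Set.ncard {c : Fin n → ZMod 2 |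
      (∑ j, algebraMap (ZMod 2) K (c j) * α ^ (j : ℕ) = 0) ∧
      (∑ j, algebraMap (ZMod 2) K (c j) * (α ^ e) ^ (j : ℕ) = 0) ∧
      (∑ j, algebraMap (ZMod 2) K (c j) * (α ^ f) ^ (j : ℕ) = 0) ∧ hammingNorm c = w} : ℕ) : ℚ) =
    ∑ v : K × K × K, GG n w (S e f v) := by
  have h1 : ∀ v : K × K × K, GG n w (S e f v) = ∑ c : Fin n → ZMod 2, if hammingNorm c = w then
      psi (v.1 * (∑ j, algebraMap (ZMod 2) K (c j) * α ^ (j : ℕ)) +
        v.2.1 * (∑ j, algebraMap (ZMod 2) K (c j) * (α ^ e) ^ (j : ℕ)) +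
        v.2.2 * (∑ j, algebraMap (ZMod 2) K (c j) * (α ^ f) ^ (j : ℕ))) else 0 := by
    intro v
    rw [S_eq hn hα hn0 e f he hf v, GG_eq _ (fun j => psi_sign _)]
    unfold el
    refine Finset.sum_congr rfl fun c _ => ?_
    split_ifs
    · rw [Finset.mul_sum, Finset.mul_sum, Finset.mul_sum, ← Finset.sum_add_distrib,
        ← Finset.sum_add_distrib, psi_sum]
      refine Finset.prod_congr rfl fun j _ => ?_
      rcases zm2 (c j) with h | h
      · rw [h]; simp [psi_zero]
      · rw [h]; simp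
    · rfl
  rw [Finset.sum_congr rfl fun v _ => h1 v, Finset.sum_comm]
  have h2 : ∀ c : Fin n → ZMod 2, (∑ v : K × K × K, if hammingNorm c = w then
      psi (v.1 * (∑ j, algebraMap (ZMod 2) K (c j) * α ^ (j : ℕ)) +
        v.2.1 * (∑ j, algebraMap (ZMod 2) K (c j) * (α ^ e) ^ (j : ℕ)) +
        v.2.2 * (∑ j, algebraMap (ZMod 2) K (c j) * (α ^ f) ^ (j : ℕ))) else 0) =
      if (∑ j, algebraMap (ZMod 2) K (c j) * α ^ (j : ℕ) = 0) ∧
        (∑ j, algebraMap (ZMod 2) K (c j) * (α ^ e) ^ (j : ℕ) = 0) ∧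
        (∑ j, algebraMap (ZMod 2) K (c j) * (α ^ f) ^ (j : ℕ) = 0) ∧ hammingNorm c = w then
        (Fintype.card K : ℚ) ^ 3 else 0 := by
    intro c
    by_cases hw : hammingNorm c = w
    · simp only [hw, if_true, and_true]
      exact orth3 _ _ _
    · simp only [hw, if_false, and_false, Finset.sum_const_zero]
  rw [Finset.sum_congr rfl fun c _ => h2 c, ← Finset.sum_filter, Finset.sum_const, nsmul_eq_mul,
    Set.ncard_eq_toFinset_card', mul_comm]
  congr 2
  apply congrArg Finset.card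
  ext c
  simp

end

theorem t_CNT : S_CNT := by
  intro t w ht
  refine ⟨GG (2 ^ (2 * t + 1) - 1) w, ?_⟩
  intro K _ _ _ hK α hα e f he hf
  have hpos : 2 ≤ 2 ^ (2 * t + 1) := by
    calc 2 = 2 ^ 1 := by norm_num
      _ ≤ 2 ^ (2 * t + 1) := Nat.pow_le_pow_right (by norm_num) (by omega)
  have hn : (2 ^ (2 * t + 1) - 1) + 1 = Fintype.card K := by rw [hK]; omega
  have h := count (K := K) hn hα (by omega) w e f he hf
  rw [hK] at h
  push_cast at h
  exact h

end Pool.Agent.Run7.h872.WD
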