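import Mathlib

/-!
Project WD (helper872): the weight distributions of the codes with zeros `1, e, f`.
-/

set_option autoImplicit false

namespace Pool.Agent.Run7.h872.WD

open Finset

/-- The additive character `x ↦ (-1)^{Tr x}` of the field `K`, with rational values. -/
noncomputable def psi {K : Type*} [Field K] [Algebra (ZMod 2) K] (x : K) : ℚ :=
  if Algebra.trace (ZMod 2) K x = 0 then 1 else -1

/-- The sum of `(-1)^{Tr (a x + b x^e + c x^f)}` over `x ∈ K`. -/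
noncomputable def S {K : Type*} [Field K] [Fintype K] [Algebra (ZMod 2) K] (e f : ℕ) (v : K × K × K) : ℚ :=
  ∑ x : K, psi (v.1 * x + v.2.1 * x ^ e + v.2.2 * x ^ f)

/-- VAL: the values of the sums with the exponents of `C_t` (`e = 1 + 2^(t-1)`, `f = 1 + 2^t`) and of
`B_t` (`e = 3`, `f = 5`). -/
def S_VAL : Prop := ∀ (t : ℕ), 2 ≤ t → ∀ (K : Type) [Field K] [Fintype K] [Algebra (ZMod 2) K],
  Fintype.card K = 2 ^ (2 * t + 1) → ∀ e f : ℕ, (e = 1 + 2 ^ (t - 1) ∧ f = 1 + 2 ^ t ∨ e = 3 ∧ f = 5) →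
  ∀ v : K × K × K, v ≠ 0 → S e f v ∈ ({0, 2 ^ (t + 1), -2 ^ (t + 1), 2 ^ (t + 2), -2 ^ (t + 2)} : Finset ℚ)

/-- MOM: the first four moments agree. -/
def S_MOM : Prop := ∀ (t : ℕ), 2 ≤ t → ∀ (K : Type) [Field K] [Fintype K] [Algebra (ZMod 2) K],
  Fintype.card K = 2 ^ (2 * t + 1) → ∀ k : ℕ, k ≤ 4 →
  ∑ v : K × K × K, S (1 + 2 ^ (t - 1)) (1 + 2 ^ t) v ^ k = ∑ v : K × K × K, S 3 5 v ^ k

/-- CNT: the number of words of weight `w` with the zeros `α, α^e, α^f` depends only on the values of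
the sums. -/
def S_CNT : Prop := ∀ (t w : ℕ), 2 ≤ t → ∃ G : ℚ → ℚ, ∀ (K : Type) [Field K] [Fintype K] [Algebra (ZMod 2) K],
  Fintype.card K = 2 ^ (2 * t + 1) → ∀ α : K, orderOf α = 2 ^ (2 * t + 1) - 1 → ∀ e f : ℕ,
  1 ≤ e → 1 ≤ f →
  ((2 : ℚ) ^ (2 * t + 1)) ^ 3 * ((Set.ncard {c : Fin (2 ^ (2 * t + 1) - 1) → ZMod 2 |
    (∑ j, algebraMap (ZMod 2) K (c j) * α ^ (j : ℕ) = 0) ∧
    (∑ j, algebraMap (ZMod 2) K (c j) * (α ^ e) ^ (j : ℕ) = 0) ∧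
    (∑ j, algebraMap (ZMod 2) K (c j) * (α ^ f) ^ (j : ℕ) = 0) ∧ hammingNorm c = w} : ℕ) : ℚ) =
  ∑ v : K × K × K, G (S e f v)

end Pool.Agent.Run7.h872.WD
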